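import Mathlib

/-! Maximal idempotents in a (non unital) algebra of endomorphisms. -/

namespace Pool.Agent.Helper89.CPB

open Polynomial Module

variable {F V : Type*} [Field F] [AddCommGroup V] [Module F V] [FiniteDimensional F V]

/-- the Fitting idempotent -/
lemma exists_idem_F (x : Module.End F V) (hn : ¬ IsNilpotent x) :
    ∃ p : F[X], (aeval x p * x) * (aeval x p * x) = aeval x p * x ∧ aeval x p * x ≠ 0 := by
  have hP0 : x.charpoly ≠ 0 := x.charpoly_monic.ne_zero
  obtain ⟨q, hq1, hq2⟩ :=
    Polynomial.exists_eq_pow_rootMultiplicity_mul_and_not_dvd x.charpoly hP0 0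
  rw [map_zero, sub_zero] at hq1 hq2
  set a := x.charpoly.rootMultiplicity 0 with ha
  have hc : IsCoprime (X ^ (a + 1) : F[X]) q :=
    ((Polynomial.irreducible_X.coprime_iff_not_dvd).2 hq2).pow_left
  obtain ⟨r, s, hrs⟩ := hc
  have EP : aeval x x.charpoly = 0 := LinearMap.aeval_self_charpoly x
  have hg : aeval x (r * X ^ a) * x = aeval x (r * X ^ (a + 1)) := by
    rw [pow_succ, ← mul_assoc, map_mul _ (r * X ^ a) X, aeval_X]
  have h1 : aeval x (r * X ^ (a + 1)) + aeval x (s * q) = 1 := by rw [← map_add, hrs, map_one]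
  refine ⟨r * X ^ a, ?_, ?_⟩
  · rw [hg]
    have h2 : aeval x (r * X ^ (a + 1)) * aeval x (s * q) = 0 := by
      rw [← map_mul]
      have : r * X ^ (a + 1) * (s * q) = (r * s * X) * (X ^ a * q) := by ring
      rw [this, ← hq1, map_mul, EP, mul_zero]
    calc aeval x (r * X ^ (a + 1)) * aeval x (r * X ^ (a + 1))
        = aeval x (r * X ^ (a + 1)) * (1 - aeval x (s * q)) := by rw [← h1]; congr 1; abel
      _ = aeval x (r * X ^ (a + 1)) := by rw [mul_sub, h2, mul_one, sub_zero]
  · rw [hg]
    intro h0
    apply hn
    rw [h0, zero_add] at h1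
    refine ⟨a, ?_⟩
    have h2 : aeval x (X ^ a : F[X]) = x ^ a := by simp
    rw [← h2, ← mul_one (aeval x (X ^ a : F[X])), ← h1, ← map_mul]
    have : (X ^ a : F[X]) * (s * q) = s * (X ^ a * q) := by ring
    rw [this, ← hq1, map_mul, EP, mul_zero]

/-- In a space `I` of endomorphisms closed under multiplication there is an `f` such that
`y (1 - f)` is nilpotent for all `y` in `I`. -/
lemma exists_generator_F (I : Submodule F (Module.End F V)) (hI : ∀ x ∈ I, ∀ y ∈ I, x * y ∈ I) :
    ∃ f ∈ I, ∀ y ∈ I, IsNilpotent (y * (1 - f)) := by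
  by_contra hcon
  push Not at hcon
  have hpow : ∀ x ∈ I, ∀ n : ℕ, x ^ (n + 1) ∈ I := by
    intro x hx n
    induction n with
    | zero => simpa using hx
    | succ n ih => rw [pow_succ]; exact hI _ ih _ hx
  have hpol : ∀ x ∈ I, ∀ p : F[X], aeval x p * x ∈ I := by
    intro x hx p
    induction p using Polynomial.induction_on' with
    | add p q hp hq => rw [map_add, add_mul]; exact I.add_mem hp hq
    | monomial n a =>
      rw [aeval_monomial, ← Algebra.smul_def, smul_mul_assoc, ← pow_succ]
      exact I.smul_mem _ (hpow x hx n)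
  have key : ∀ n : ℕ, ∃ f ∈ I, f * f = f ∧ n ≤ finrank F (LinearMap.range f) := by
    intro n
    induction n with
    | zero => exact ⟨0, I.zero_mem, by simp, Nat.zero_le _⟩
    | succ n ih =>
      obtain ⟨f, hf, hff, hn⟩ := ih
      obtain ⟨y, hy, hty⟩ := hcon f hf
      set x := y * (1 - f) with hx
      have hxI : x ∈ I := by
        rw [hx, mul_sub, mul_one]
        exact I.sub_mem hy (hI _ hy _ hf)
      have hxf : x * f = 0 := by
        rw [hx, mul_assoc, sub_mul, one_mul, hff, sub_self, mul_zero]
      obtain ⟨p, hgg, hg0⟩ := exists_idem_F x hty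
      set g := aeval x p * x with hg
      have hgI : g ∈ I := hpol x hxI p
      have hgf : g * f = 0 := by rw [hg, mul_assoc, hxf, mul_zero]
      have h1 : (f + g - f * g) * f = f := by
        rw [sub_mul, add_mul, hff, hgf, mul_assoc, hgf]; simp
      have h2 : (f + g - f * g) * g = g := by
        rw [sub_mul, add_mul, hgg, mul_assoc, hgg]; abel
      refine ⟨f + g - f * g, ?_, ?_, ?_⟩
      · exact I.sub_mem (I.add_mem hf hgI) (hI _ hf _ hgI)
      · rw [mul_sub, mul_add, h1, h2, ← mul_assoc, h1]
      · have hlt : LinearMap.range f < LinearMap.range (f + g - f * g) := by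
          rw [lt_iff_le_and_ne]
          constructor
          · rintro _ ⟨v, rfl⟩
            exact ⟨f v, by rw [← Module.End.mul_apply, h1]⟩
          · intro heq
            apply hg0
            have h3 : f * g = g := by
              ext v
              have h4 : g v ∈ LinearMap.range f := by
                rw [heq]; exact ⟨g v, by rw [← Module.End.mul_apply, h2]⟩
              obtain ⟨w, hw⟩ := h4
              rw [Module.End.mul_apply, ← hw, ← Module.End.mul_apply, hff]
            calc g = g * g := hgg.symm
              _ = g * (f * g) := by rw [h3]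
              _ = 0 := by rw [← mul_assoc, hgf, zero_mul]
        have := Submodule.finrank_lt_finrank_of_lt hlt
        omega
  obtain ⟨f, -, -, hn⟩ := key (finrank F V + 1)
  have := Submodule.finrank_le (LinearMap.range f)
  omega

end Pool.Agent.Helper89.CPB
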