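import Pool.Agent.Helper29.CPB.Graded
import Pool.Agent.Helper17.Sign.PowerSums
import Pool.Agent.Helper89.CPB.GenF

/-!
# M6: a generator, modulo supertraces, of the left ideal `corr (-c) * L ^ c`
-/

namespace Pool.Agent.Helper29.CPB

open TensorProduct

universe u v

variable {F : Type u} [Field F] [CharZero F]

lemma Variety.commute_sgn (X : Variety.{u, v} F) {x : Module.End F X.H} (hx : x ∈ X.corr 0) :
    x * X.sgn = X.sgn * x := by
  apply X.ext_homog
  intro i v hv
  rw [Module.End.mul_apply, Module.End.mul_apply, X.sgn_apply hv, map_smul,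
    X.sgn_apply (X.corr_homog hx (by ring) hv)]

theorem exists_generator_corr (X : Variety.{u, v} F) (c : ℕ) : ∃ w ∈ X.corr (-c),
    ∀ θ ∈ X.corr (-c),
      LinearMap.trace F X.H (θ * X.L ^ c * (1 - w * X.L ^ c) * X.sgn) = 0 := by
  let s : Set (Module.End F X.H) := {y | ∃ w ∈ X.corr (-c), y = w * X.L ^ c}
  have hs0 : ∀ y ∈ s, y ∈ X.corr 0 := by
    rintro y ⟨w, hw, rfl⟩
    exact X.corr_mul' (by ring) hw (X.Lpow_corr c)
  let I : Submodule F (Module.End F X.H) := Submodule.span F s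
  have hI : ∀ x ∈ I, ∀ y ∈ I, x * y ∈ I := by
    intro x hx y hy
    have h1 : x * y ∈ I * I := Submodule.mul_mem_mul hx hy
    have h2 : I * I ≤ I := by
      show Submodule.span F s * Submodule.span F s ≤ _
      rw [Submodule.span_mul_span]
      apply Submodule.span_mono
      rintro _ ⟨a, ha, b, ⟨w, hw, rfl⟩, rfl⟩
      refine ⟨a * w, X.corr_mul' (by ring) (hs0 a ha) hw, ?_⟩
      show a * (w * X.L ^ c) = _
      rw [mul_assoc]
    exact h2 h1
  have hcomm : ∀ x ∈ I, x * X.sgn = X.sgn * x := by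
    intro x hx
    induction hx using Submodule.span_induction with
    | mem x hx => exact X.commute_sgn (hs0 x hx)
    | zero => simp
    | add x y _ _ hx hy => rw [add_mul, mul_add, hx, hy]
    | smul a x _ hx => rw [smul_mul_assoc, mul_smul_comm, hx]
  obtain ⟨f, hf, hf'⟩ := Pool.Agent.Helper89.CPB.exists_generator_F I hI
  have hzero : ∀ y ∈ I, LinearMap.trace F X.H (y * (1 - f) * X.sgn) = 0 := by
    intro y hy
    have hm : y * (1 - f) ∈ I := by
      rw [mul_sub, mul_one]; exact I.sub_mem hy (hI _ hy _ hf)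
    have h1 : IsNilpotent (y * (1 - f) * X.sgn) :=
      Commute.isNilpotent_mul_right (show Commute _ X.sgn from hcomm _ hm) (hf' y hy)
    have h2 := LinearMap.isNilpotent_trace_of_isNilpotent h1
    rwa [isNilpotent_iff_eq_zero] at h2
  obtain ⟨n, a, g, hfg⟩ := Submodule.mem_span_set'.mp hf
  have hg : ∀ i, ∃ w ∈ X.corr (-c), (g i : Module.End F X.H) = w * X.L ^ c := fun i => (g i).2
  choose w hw hgw using hg
  obtain ⟨l, hl⟩ := Pool.Agent.Helper17.Sign.exists_retraction F
  refine ⟨∑ i, ((l (a i) : ℚ) : F) • w i, ?_, ?_⟩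
  · exact (X.corr (-c)).sum_mem fun i _ => X.corr_smul _ _ _ (hw i)
  · intro θ hθ
    have hy : θ * X.L ^ c ∈ s := ⟨θ, hθ, rfl⟩
    have hrat : ∀ y ∈ X.corr 0, ∃ q : ℚ, LinearMap.trace F X.H (y * X.sgn) = (q : F) :=
      fun y hy => X.corr_rat y hy
    obtain ⟨q0, hq0⟩ := hrat _ (hs0 _ hy)
    have hq : ∀ i, ∃ q : ℚ, LinearMap.trace F X.H (θ * X.L ^ c * (w i * X.L ^ c) * X.sgn) =
        (q : F) := fun i => hrat _ (X.corr_mul' (by ring) (hs0 _ hy)
          (X.corr_mul' (r := -(c : ℤ)) (s := (c : ℤ)) (t := 0) (by ring) (hw i) (X.Lpow_corr c)))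
    choose q hq using hq
    have h1 := hzero _ (Submodule.subset_span hy)
    have h2 : f = ∑ i, a i • (w i * X.L ^ c) := by
      rw [← hfg]
      exact Finset.sum_congr rfl fun i _ => by rw [hgw]
    rw [h2, mul_sub, mul_one, sub_mul, map_sub, hq0, Finset.mul_sum, Finset.sum_mul, map_sum] at h1
    have h3 : ∑ i, LinearMap.trace F X.H (θ * X.L ^ c * a i • (w i * X.L ^ c) * X.sgn) =
        ∑ i, a i * (q i : F) := by
      refine Finset.sum_congr rfl fun i _ => ?_
      rw [mul_smul_comm, smul_mul_assoc, map_smul, hq i, smul_eq_mul]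
    rw [h3, sub_eq_zero] at h1
    have h4 : q0 = ∑ i, l (a i) * q i := by
      have h5 := congrArg l h1
      rw [hl, map_sum] at h5
      rw [h5]
      refine Finset.sum_congr rfl fun i _ => ?_
      rw [mul_comm (a i) (q i : F), ← Rat.smul_def, map_smul, smul_eq_mul, mul_comm]
    rw [mul_sub, mul_one, sub_mul, map_sub, hq0, Finset.sum_mul, Finset.mul_sum, Finset.sum_mul,
      map_sum, sub_eq_zero, h4]
    push_cast
    refine Finset.sum_congr rfl fun i _ => ?_
    rw [smul_mul_assoc, mul_smul_comm, smul_mul_assoc, map_smul, hq i, smul_eq_mul]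

end Pool.Agent.Helper29.CPB
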