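import Pool.Agent.Helper29.CPB.Graded

/-!
# M3/M6: the sign conjecture for a generic section of odd dimension gives `EvenInverse`
-/

namespace Pool.Agent.Helper29.CPB

open TensorProduct

universe u v

variable {F : Type u} [Field F] [CharZero F]

theorem evenInverse_of_cplus {Z S : Variety.{u, v} F} {s : ℕ} (G : GenericSection Z S s)
    (hodd : Odd S.dim) (h : S.CPlus) : EvenInverse Z s := by
  obtain ⟨γ, hγ, c, hc⟩ := G.generic _ h
  have happ : ∀ y, (∑ j ∈ (Finset.Icc (0 : ℤ) (2 * S.dim)).filter Even, S.π j) y =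
      G.up (γ (G.dn y)) + (c : F) • y := by
    intro y
    rw [hc]; rfl
  have hoddZ : ¬ Even (S.dim : ℤ) := by
    rw [Int.not_even_iff_odd]; exact_mod_cast hodd
  -- the constant vanishes
  have hc0 : (c : F) = 0 := by
    obtain ⟨e, he0, he, hde⟩ := G.vanishing
    have h1 := happ e
    rw [S.evenPart_apply he, if_neg hoddZ, hde, map_zero, map_zero, zero_add] at h1
    exact (smul_eq_zero.mp h1.symm).resolve_right he0
  have happ' : ∀ y, (∑ j ∈ (Finset.Icc (0 : ℤ) (2 * S.dim)).filter Even, S.π j) y =
      G.up (γ (G.dn y)) := by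
    intro y
    rw [happ, hc0, zero_smul, add_zero]
  have hdu : ∀ z, G.dn (G.up z) = ((G.m : F) ^ s) • (Z.L ^ s) z := by
    intro z
    have := congrArg (fun g => g z) G.dn_up
    exact this
  have hup : ∀ {i : ℤ} {z : Z.H}, Z.π i z = z → S.π i (G.up z) = G.up z := by
    intro i z hz
    have := congrArg (fun g => g z) (G.up_deg i)
    simp only [LinearMap.comp_apply] at this
    rw [← this, hz]
  have hdim := G.dim
  refine ⟨((G.m : F) ^ s) • γ, ?_, ?_, ?_⟩
  · have := Z.corr_smul ((G.m : ℚ) ^ s) (-s) γ hγ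
    push_cast at this
    exact this
  · -- lower degrees
    intro j hjd z hz
    have hjS : j ≤ S.dim := by omega
    set z' := γ (((G.m : F) ^ s) • (Z.L ^ s) z) with hz'
    have h1 : (if Even j then G.up z else 0) = G.up z' := by
      have h2 := happ' (G.up z)
      rw [S.evenPart_apply (hup hz), hdu] at h2
      exact h2
    have hLz : Z.π (j + 2 * s) ((Z.L ^ s) z) = (Z.L ^ s) z :=
      Z.corr_homog (Z.Lpow_corr s) (by ring) hz
    have hz'd : Z.π j z' = z' := by
      have h3 : Z.π (j + 2 * s) (((G.m : F) ^ s) • (Z.L ^ s) z) = ((G.m : F) ^ s) • (Z.L ^ s) z := by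
        rw [map_smul, hLz]
      exact Z.corr_homog hγ (by ring) h3
    have h4 : z' - (if Even j then z else 0) = 0 := by
      apply G.weak_inj j hjS
      · split_ifs
        · rw [map_sub, hz, hz'd]
        · rw [sub_zero, hz'd]
      · rw [map_sub, ← h1]
        split_ifs <;> simp
    rw [LinearMap.smul_apply, ← map_smul, ← hz']
    exact sub_eq_zero.mp h4
  · -- upper degrees
    intro j hjd z hz
    obtain ⟨y0, hy0⟩ := G.weak_surj (j - 2 * s) (by omega) z (by
      rw [show j - 2 * (s : ℤ) + 2 * s = j by ring]; exact hz)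
    -- take the component of degree j - 2 s
    set y := S.π (j - 2 * s) y0 with hy
    have hyd : S.π (j - 2 * s) y = y := S.π_apply_idem _ _
    have hdy : G.dn y = z := by
      have := congrArg (fun g => g y0) (G.dn_deg (j - 2 * s))
      simp only [LinearMap.comp_apply] at this
      rw [hy, this, hy0, show j - 2 * (s : ℤ) + 2 * s = j by ring, hz]
    have hev : Even (j - 2 * (s : ℤ)) ↔ Even j := by
      rw [Int.even_sub]; simp
    have h2 := happ' y
    rw [S.evenPart_apply hyd, hdy] at h2
    have h3 := congrArg G.dn h2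
    rw [hdu] at h3
    rw [LinearMap.smul_apply, map_smul, ← h3]
    by_cases he : Even j
    · rw [if_pos he, if_pos (hev.mpr he), hdy]
    · rw [if_neg he, if_neg (fun h => he (hev.mp h)), map_zero]

theorem half_of_cplus {Z S : Variety.{u, v} F} {s : ℕ} (G : GenericSection Z S s)
    (hodd : Odd S.dim) (h : S.CPlus) : Half Z s := by
  obtain ⟨γ, hγ, h1, h2⟩ := evenInverse_of_cplus G hodd h
  refine ⟨γ, hγ, fun j hj hjd z hz => ?_, fun j hj hjd z hz => ?_⟩
  · rw [h1 j (by omega) z hz, if_pos hj]
  · rw [h2 j (by omega) z hz, if_pos hj]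

end Pool.Agent.Helper29.CPB
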