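import Pool.Agent.Helper89.CPB.Poincare
import Pool.Agent.Helper89.CPB.Generator
import Pool.Agent.Helper64.CPB.Converse
import Pool.Agent.Helper91.CPB.LocalConverse

/-!
# Homological and numerical equivalence on `X × X`

`D(X × X)` implies `B(X)` in every characteristic; with the Hodge index theorem `B(X)` implies
`D(X × X)`.
-/

namespace Pool.Agent.Helper29.CPB

open TensorProduct TT

universe u v

variable {F : Type u} [Field F] [CharZero F] {X Z : Variety.{u, v} F}

/-- Homological and numerical equivalence agree on `X × X`: a class in `corr r`, of codimension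
`dim X + r` on `X × X`, whose intersection numbers with all algebraic classes of complementary
codimension vanish is zero. -/
def Variety.HomNum (X : Variety.{u, v} F) : Prop :=
  ∀ r : ℤ, ∀ a ∈ X.corr r,
    (∀ v ∈ X.corr (-r), LinearMap.trace F X.H (v * a * X.sgn) = 0) → a = 0

lemma Lpow_injective_low (X : Variety.{u, v} F) {c : ℕ} {i : ℤ} (hi : i + c ≤ X.dim) {x : X.H}
    (hx : X.π i x = x) (h : (X.L ^ c) x = 0) : x = 0 := by
  by_cases h0 : i < 0
  · exact X.homog_zero (Or.inl h0) hx
  obtain ⟨j, rfl⟩ := Int.eq_ofNat_of_zero_le (not_lt.mp h0)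
  refine X.hard_inj j (by omega) x hx ?_
  rw [show X.dim - j = (X.dim - j - c) + c by omega, pow_add, Module.End.mul_apply, h, map_zero]

/-- `D(X × X)` implies `B(X)`, in every characteristic. -/
theorem lefschetz_of_homNum (h : X.HomNum) : X.Lefschetz := by
  intro i hi
  set c := X.dim - i with hc
  obtain ⟨w, hw, hw'⟩ := exists_generator_corr X c
  refine ⟨w, by rw [show (i : ℤ) - X.dim = -(c : ℤ) by omega]; exact hw, ?_⟩
  have hwL : w * X.L ^ c ∈ X.corr 0 := X.corr_mul' (by ring) hw (X.Lpow_corr c)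
  have ha : X.L ^ c * (1 - w * X.L ^ c) ∈ X.corr c :=
    X.corr_mul' (s := 0) (by ring) (X.Lpow_corr c) ((X.corr 0).sub_mem X.corr_one hwL)
  have h0 : X.L ^ c * (1 - w * X.L ^ c) = 0 := by
    apply h c _ ha
    intro v hv
    rw [← mul_assoc]
    exact hw' v hv
  intro x hx
  have h1 := congrArg (fun f => f x) h0
  simp only [Module.End.mul_apply, LinearMap.sub_apply, Module.End.one_apply,
    LinearMap.zero_apply] at h1
  have h2 : X.π i (x - w ((X.L ^ c) x)) = x - w ((X.L ^ c) x) := by
    have := X.corr_homog hwL (j := i) (by ring) hx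
    rw [Module.End.mul_apply] at this
    rw [map_sub, hx, this]
  exact (sub_eq_zero.mp (Lpow_injective_low X (by omega) h2 h1)).symm

/-- The part of the Hodge index theorem for `X × X` (characteristic 0) which is used: the classes
form finite dimensional `ℚ`-spaces and the Hodge–Riemann form is definite on primitive classes.
The intersection number of `a` and `c` is the alternating trace of `ᵗa ∘ c`. -/
structure HodgeIndex (X : Variety.{u, v} F) (P : Poincare X) : Prop where
  fin : ∀ r : ℤ, ∃ s : Finset (Module.End F X.H), ∀ f ∈ X.corr r, ∃ c : Module.End F X.H → ℚ,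
    f = ∑ g ∈ s, (c g : F) • g
  index : ∀ s : ℕ, ∀ a ∈ X.corr (-s), ∀ b ∈ X.corr (-s), (∀ x y, P.B (a x) y = P.B x (b y)) →
    (X.cup ^ (2 * s + 1)) a = 0 → a ≠ 0 →
    ∃ q : ℚ, 0 < q ∧ LinearMap.trace F X.H (b * (X.cup ^ (2 * s)) a * X.sgn) =
      (-1) ^ (X.dim + s) * (q : F)

/-- operators of even degree commute with the parity operator -/
lemma corr_comm_sgn (X : Variety.{u, v} F) {r : ℤ} {f : Module.End F X.H} (hf : f ∈ X.corr r) :
    f * X.sgn = X.sgn * f := by
  apply X.ext_homog
  intro i x hx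
  rw [Module.End.mul_apply, Module.End.mul_apply, X.sgn_apply hx, map_smul,
    X.sgn_apply (X.corr_homog hf rfl hx)]
  congr 1
  have e1 : Even (i + 2 * r).natAbs ↔ Even i.natAbs := by
    rw [Int.natAbs_even, Int.natAbs_even, Int.even_add]
    simp
  rcases Nat.even_or_odd i.natAbs with h3 | h3
  · rw [h3.neg_one_pow, (e1.mpr h3).neg_one_pow]
  · have h4 : Odd (i + 2 * r).natAbs := by
      rw [← Nat.not_even_iff_odd] at h3 ⊢
      exact fun h5 => h3 (e1.mp h5)
    rw [h3.neg_one_pow, h4.neg_one_pow]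

/-- `corr r` as a rational vector space -/
noncomputable def corrQ (X : Variety.{u, v} F) (r : ℤ) :
    letI : Module ℚ (Module.End F X.H) := Module.compHom _ (algebraMap ℚ F)
    Submodule ℚ (Module.End F X.H) :=
  letI : Module ℚ (Module.End F X.H) := Module.compHom _ (algebraMap ℚ F)
  { carrier := {f | f ∈ X.corr r}
    add_mem' := fun ha hb => (X.corr r).add_mem ha hb
    zero_mem' := (X.corr r).zero_mem
    smul_mem' := fun q f hf => X.corr_smul q r f hf }

/-- Two injective linear maps in opposite directions between finite dimensional rational spaces of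
operators are surjective. -/
lemma surj_of_inj (X : Variety.{u, v} F) (r t : ℤ)
    (fin : ∃ s : Finset (Module.End F X.H), ∀ f ∈ X.corr t, ∃ c : Module.End F X.H → ℚ,
      f = ∑ g ∈ s, (c g : F) • g)
    (α β : Module.End F (Module.End F X.H))
    (hα : ∀ a ∈ X.corr r, α a ∈ X.corr t) (hβ : ∀ b ∈ X.corr t, β b ∈ X.corr r)
    (hα' : ∀ a ∈ X.corr r, α a = 0 → a = 0) (hβ' : ∀ b ∈ X.corr t, β b = 0 → b = 0) :
    ∀ b ∈ X.corr t, ∃ a ∈ X.corr r, α a = b := by
  letI : Module ℚ (Module.End F X.H) := Module.compHom _ (algebraMap ℚ F)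
  have hsm : ∀ (q : ℚ) (f : Module.End F X.H), q • f = (q : F) • f := fun q f => rfl
  let V : Submodule ℚ (Module.End F X.H) := corrQ X t
  have hV : ∀ f, f ∈ V ↔ f ∈ X.corr t := fun f => Iff.rfl
  obtain ⟨s, hs⟩ := fin
  have hle : V ≤ Submodule.span ℚ (s : Set (Module.End F X.H)) := by
    intro f hf
    obtain ⟨c, hc⟩ := hs f hf
    rw [hc]
    refine Submodule.sum_mem _ fun g hg => ?_
    rw [← hsm]
    exact Submodule.smul_mem _ _ (Submodule.subset_span hg)
  haveI : FiniteDimensional ℚ V := by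
    haveI : FiniteDimensional ℚ (Submodule.span ℚ (s : Set (Module.End F X.H))) :=
      FiniteDimensional.span_of_finite ℚ s.finite_toSet
    exact Submodule.finiteDimensional_of_le hle
  let γ : V →ₗ[ℚ] V :=
    { toFun := fun f => ⟨α (β f.1), hα _ (hβ _ f.2)⟩
      map_add' := fun f g => by
        apply Subtype.ext
        show α (β (f.1 + g.1)) = α (β f.1) + α (β g.1)
        rw [map_add, map_add]
      map_smul' := fun q f => by
        apply Subtype.ext
        show α (β ((q : F) • f.1)) = (q : F) • α (β f.1)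
        rw [map_smul, map_smul] }
  have hinj : Function.Injective γ := by
    rw [injective_iff_map_eq_zero]
    intro f hf
    have h1 : α (β f.1) = 0 := congrArg Subtype.val hf
    apply Subtype.ext
    exact hβ' _ f.2 (hα' _ (hβ _ f.2) h1)
  have hsurj := LinearMap.injective_iff_surjective.mp hinj
  intro b hb
  obtain ⟨f, hf⟩ := hsurj ⟨b, hb⟩
  exact ⟨β f.1, hβ _ f.2, congrArg Subtype.val hf⟩

/-- Under `B(X)` there is an injective linear map `corr s → corr (-s)`. -/
lemma exists_flip (h : X.Lefschetz) (s : ℤ) : ∃ β : Module.End F (Module.End F X.H),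
    (∀ b ∈ X.corr s, β b ∈ X.corr (-s)) ∧ (∀ b, β b = 0 → b = 0) := by
  have hK := kunneth_of_lefschetz X h
  choose t ht t' ht' using X.exists_iso_of_lefschetz h
  set T : Module.End F X.H := ∑ i ∈ Finset.Icc (0 : ℤ) (2 * X.dim), t i * X.π i with hT
  have hTπ : ∀ j, T * X.π j = t j * X.π j := by
    intro j
    rw [hT, Finset.sum_mul]
    by_cases hj : j ∈ Finset.Icc (0 : ℤ) (2 * X.dim)
    · rw [Finset.sum_eq_single_of_mem j hj]
      · rw [mul_assoc, X.π_idem]
      · intro i _ hij
        rw [mul_assoc, X.π_orth i j hij, mul_zero]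
    · rw [X.π_out j (by rw [Finset.mem_Icc, not_and_or] at hj; omega)]
      simp
  have hTx : ∀ (j : ℤ) (x : X.H), X.π j x = x → T x = t j x := by
    intro j x hx
    have := congrArg (fun f => f x) (hTπ j)
    simpa [hx] using this
  have hTinj : Function.Injective T := by
    rw [injective_iff_map_eq_zero]
    intro x hx
    apply X.eq_zero_of_forall_π
    intro j
    have h1 : X.π (2 * X.dim - j) (T x) = t j (X.π j x) := by
      conv_lhs => rw [← sum_π_apply X x]
      rw [map_sum, map_sum]
      have h2 : ∀ i, X.π (2 * X.dim - j) (T (X.π i x)) = if i = j then t j (X.π j x) else 0 := by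
        intro i
        rw [hTx i _ (X.π_apply_idem i x)]
        have h3 := X.corr_homog (ht i) (i := i) (j := 2 * X.dim - i) (by ring)
          (X.π_apply_idem i x)
        split_ifs with hij
        · subst hij; exact h3
        · exact X.π_apply_ne (by omega) h3
      rw [Finset.sum_congr rfl fun i _ => h2 i, Finset.sum_ite_eq']
      split_ifs with hj
      · rfl
      · rw [X.π_out j (by rw [Finset.mem_Icc, not_and_or] at hj; omega)]
        simp
    rw [hx, map_zero] at h1
    have h2 := ht' j (X.π j x) (X.π_apply_idem j x)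
    rw [← h1, map_zero] at h2
    exact h2.symm
  have hTsurj : Function.Surjective T := LinearMap.injective_iff_surjective.mp hTinj
  refine ⟨LinearMap.mulLeft F T ∘ₗ LinearMap.mulRight F T, ?_, ?_⟩
  · intro b hb
    show T * (b * T) ∈ _
    have h1 : T * (b * T) = ∑ j ∈ Finset.Icc (0 : ℤ) (2 * X.dim),
        t (2 * X.dim - j + 2 * s) * (b * (t j * X.π j)) := by
      conv_lhs => rw [hT]
      rw [Finset.mul_sum, Finset.mul_sum]
      refine Finset.sum_congr rfl fun j _ => ?_
      apply LinearMap.ext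
      intro x
      simp only [Module.End.mul_apply]
      apply hTx
      have h3 := X.corr_homog (ht j) (i := j) (j := 2 * X.dim - j) (by ring)
          (X.π_apply_idem j x)
      exact X.corr_homog hb rfl h3
    rw [h1]
    refine X.corr_sum _ _ fun j _ => ?_
    refine X.corr_mul' (s := s + ((X.dim : ℤ) - j)) (by ring) (ht _) ?_
    refine X.corr_mul' rfl hb ?_
    exact X.corr_mul' (by ring) (ht j) (hK j)
  · intro b hb
    have hb' : T * (b * T) = 0 := hb
    apply LinearMap.ext
    intro x
    obtain ⟨y, rfl⟩ := hTsurj x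
    apply hTinj
    have := congrArg (fun f => f y) hb'
    simpa using this

variable {τ : (X.H ⊗[F] X.H) ≃ₗ[F] Z.H}

/-- Under `B(X)` the operator `L^(2s)` on the classes of `X × X` is surjective. -/
lemma cup_surj (P : Poincare X) (hsq : IsSquare X Z τ)
    (fin : ∀ r : ℤ, ∃ s : Finset (Module.End F X.H), ∀ f ∈ X.corr r,
      ∃ c : Module.End F X.H → ℚ, f = ∑ g ∈ s, (c g : F) • g)
    (h : X.Lefschetz) (s : ℕ) : ∀ b ∈ X.corr s, ∃ a ∈ X.corr (-s), (X.cup ^ (2 * s)) a = b := by
  obtain ⟨β, h1, h2⟩ := exists_flip h (s : ℤ)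
  exact surj_of_inj X (-s) s (fin s) (X.cup ^ (2 * s)) β
    (fun a ha => cup_pow_mem (2 * s) (by push_cast; ring) ha) h1
    (fun a ha h0 => P.hard_cup hsq s ha h0) (fun b _ h0 => h2 b h0)

namespace Poincare

variable (P : Poincare X)

/-- the intersection number of classes on `X × X` -/
noncomputable def int (a c : Module.End F X.H) : F :=
  LinearMap.trace F X.H (P.adj a * c * X.sgn)

lemma int_add (a b c : Module.End F X.H) : P.int (a + b) c = P.int a c + P.int b c := by
  unfold int
  rw [P.adj_add, add_mul, add_mul, map_add]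

lemma int_zero (a : Module.End F X.H) : P.int a 0 = 0 := by
  unfold int
  simp

lemma int_cup {r t : ℤ} {a c : Module.End F X.H} (ha : a ∈ X.corr r) (hc : c ∈ X.corr t) :
    P.int (X.cup a) c = P.int a (X.cup c) := by
  unfold int
  have hm : P.adj a * c ∈ X.corr (r + t) := X.corr_mul' rfl (P.adj_mem ha) hc
  rw [cup_apply, cup_apply, P.adj_add, P.adj_mul, P.adj_mul, P.adj_L, add_mul, add_mul, map_add,
    mul_add, add_mul, map_add]
  have h1 : X.L * P.adj a * c * X.sgn = X.L * (P.adj a * c * X.sgn) := by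
    simp only [mul_assoc]
  have h2 : P.adj a * (c * X.L) * X.sgn = P.adj a * c * X.sgn * X.L := by
    rw [mul_assoc _ X.sgn, ← corr_comm_sgn X X.L_corr]
    simp only [mul_assoc]
  rw [h1, h2, LinearMap.trace_mul_comm F X.L, ← mul_assoc (P.adj a) X.L c]

lemma int_cup_pow (k : ℕ) {r t : ℤ} {a c : Module.End F X.H} (ha : a ∈ X.corr r)
    (hc : c ∈ X.corr t) : P.int ((X.cup ^ k) a) c = P.int a ((X.cup ^ k) c) := by
  induction k generalizing t c with
  | zero => simp
  | succ k ih =>
    rw [pow_succ', Module.End.mul_apply, P.int_cup (cup_pow_mem k rfl ha) hc,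
      ih (cup_mem rfl hc), ← Module.End.mul_apply, ← pow_succ, pow_succ']

/-- Definiteness gives non-degeneracy, in non-positive degrees. -/
lemma exists_int_ne_zero (hH : HodgeIndex X P)
    (hsurj : ∀ s : ℕ, ∀ b ∈ X.corr s, ∃ a ∈ X.corr (-s), (X.cup ^ (2 * s)) a = b) (k : ℕ) :
    ∀ s : ℕ, X.dim + 1 ≤ s + k → ∀ b ∈ X.corr (-s), b ≠ 0 → ∃ v ∈ X.corr s, P.int b v ≠ 0 := by
  induction k with
  | zero =>
    intro s hs b hb hb0
    refine absurd ?_ hb0
    apply X.ext_homog
    intro i x hx
    rw [LinearMap.zero_apply]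
    by_cases hi : 2 * (X.dim : ℤ) < i
    · rw [X.homog_zero (Or.inr hi) hx, map_zero]
    · exact X.homog_zero (Or.inl (by omega)) (X.corr_homog hb rfl hx)
  | succ k ih =>
    intro s hs b hb hb0
    obtain ⟨d, hd, hd'⟩ := hsurj (s + 1) ((X.cup ^ (2 * s + 1)) b)
      (cup_pow_mem _ (by push_cast; ring) hb)
    have hcd : X.cup d ∈ X.corr (-s) := cup_mem (by push_cast; ring) hd
    by_cases h0 : b - X.cup d = 0
    · have hbd : b = X.cup d := sub_eq_zero.mp h0
      have hd0 : d ≠ 0 := by
        rintro rfl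
        rw [map_zero] at hbd
        exact hb0 hbd
      obtain ⟨v, hv, hv'⟩ := ih (s + 1) (by omega) d hd hd0
      obtain ⟨u, hu, rfl⟩ := hsurj (s + 1) v hv
      refine ⟨(X.cup ^ (2 * s + 1)) u, cup_pow_mem _ (by push_cast; ring) hu, ?_⟩
      rw [hbd, P.int_cup hd (cup_pow_mem _ rfl hu), ← Module.End.mul_apply, ← pow_succ',
        show 2 * s + 1 + 1 = 2 * (s + 1) by ring]
      exact hv'
    · set b0 := b - X.cup d with hb0d
      have hb0m : b0 ∈ X.corr (-s) := (X.corr _).sub_mem hb hcd
      have hprim : (X.cup ^ (2 * s + 1)) b0 = 0 := by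
        rw [hb0d, map_sub, ← Module.End.mul_apply _ X.cup, ← pow_succ,
          show 2 * s + 1 + 1 = 2 * (s + 1) by ring, hd', sub_self]
      have hv : (X.cup ^ (2 * s)) b0 ∈ X.corr s := cup_pow_mem _ (by push_cast; ring) hb0m
      refine ⟨_, hv, ?_⟩
      obtain ⟨q, hq, hq'⟩ := hH.index s b0 hb0m (P.adj b0) (P.adj_mem hb0m)
        (P.adj_apply b0) hprim h0
      have hb : b = b0 + X.cup d := by rw [hb0d]; abel
      rw [hb, P.int_add, P.int_cup hd hv, ← Module.End.mul_apply X.cup, ← pow_succ', hprim,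
        P.int_zero, add_zero]
      show LinearMap.trace F X.H _ ≠ 0
      rw [hq']
      exact mul_ne_zero (pow_ne_zero _ (by simp)) (by exact_mod_cast hq.ne')

/-- In characteristic 0, the conjecture `A(X × X)` implies that homological and numerical
equivalence agree on `X × X`. -/
theorem homNum_of_surj (hH : HodgeIndex X P)
    (hsurj : ∀ s : ℕ, ∀ b ∈ X.corr s, ∃ a ∈ X.corr (-s), (X.cup ^ (2 * s)) a = b) :
    X.HomNum := by
  have hneg : ∀ s : ℕ, ∀ b ∈ X.corr (-s), b ≠ 0 → ∃ v ∈ X.corr s, P.int b v ≠ 0 :=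
    fun s => P.exists_int_ne_zero hH hsurj (X.dim + 1) s (by omega)
  have hall : ∀ r : ℤ, ∀ b ∈ X.corr r, b ≠ 0 → ∃ v ∈ X.corr (-r), P.int b v ≠ 0 := by
    intro r b hb hb0
    rcases le_total r 0 with hr | hr
    · obtain ⟨s, hs⟩ := Int.eq_ofNat_of_zero_le (a := -r) (by omega)
      have hr' : r = -(s : ℤ) := by omega
      subst hr'
      obtain ⟨v, hv, hv'⟩ := hneg s b hb hb0
      exact ⟨v, by rwa [neg_neg], hv'⟩
    · obtain ⟨s, rfl⟩ := Int.eq_ofNat_of_zero_le hr
      obtain ⟨c, hc, rfl⟩ := hsurj s b hb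
      have hc0 : c ≠ 0 := by
        rintro rfl
        exact hb0 (map_zero _)
      obtain ⟨v, hv, hv'⟩ := hneg s c hc hc0
      obtain ⟨u, hu, rfl⟩ := hsurj s v hv
      refine ⟨u, hu, ?_⟩
      rw [P.int_cup_pow _ hc hu]
      exact hv'
  intro r a ha hnum
  by_contra ha0
  have hb0 : P.adj a ≠ 0 := by
    intro h0
    apply ha0
    rw [← P.adj_adj ha, h0, P.adj_zero]
  obtain ⟨v, hv, hv'⟩ := hall r _ (P.adj_mem ha) hb0
  apply hv'
  unfold int
  rw [P.adj_adj ha]
  have := hnum v hv
  rw [mul_assoc, LinearMap.trace_mul_comm, mul_assoc, corr_comm_sgn X hv |>.symm] at this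
  rw [← this, mul_assoc]

/-- In characteristic 0, `B(X)` implies that homological and numerical equivalence agree on
`X × X`. -/
theorem homNum_of_lefschetz (hH : HodgeIndex X P) (hsq : IsSquare X Z τ) (h : X.Lefschetz) :
    X.HomNum :=
  P.homNum_of_surj hH (cup_surj P hsq hH.fin h)

end Poincare

end Pool.Agent.Helper29.CPB
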