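import Pool.Agent.Helper89.CPB.StatementD
import Pool.Agent.Helper89.CPB.HomNum
import Pool.Agent.Helper29.CPB.Main

/-!
# The standard conjectures `A`, `B`, `D` in characteristic 0
-/

namespace Pool.Agent.Helper29.CPB

open TensorProduct

universe u v

variable {F : Type u} [Field F] [CharZero F] {X Z : Variety.{u, v} F}

lemma cupPow_eq (X : Variety.{u, v} F) (k : ℕ) (a : Module.End F X.H) :
    cupPow X.L k a = (X.cup ^ k) a := by
  induction k with
  | zero => rfl
  | succ k ih =>
    rw [pow_succ', Module.End.mul_apply, ← ih]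
    exact Function.iterate_succ_apply' _ _ _

/-- Poincaré duality in the working form. -/
noncomputable def IsPoincare.toPoincare {B : X.H →ₗ[F] X.H →ₗ[F] F}
    (h : IsPoincare X.dim X.π X.L X.alg B) : Poincare X where
  B := B
  left := h.left
  right := h.right
  deg := h.deg
  comm := h.comm
  L_adj := h.polar
  transp := h.transp

lemma IsPoincare.hodgeIndex {B : X.H →ₗ[F] X.H →ₗ[F] F}
    (h : IsPoincare X.dim X.π X.L X.alg B) (hfin : FiniteClasses X.alg)
    (hHR : HodgeRiemann X.dim X.π X.L X.alg B) : HodgeIndex X h.toPoincare where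
  fin := hfin
  index := by
    intro s a ha b _ hab h0 hne
    obtain ⟨q, hq, hq'⟩ := hHR s a b ha hab (by rw [cupPow_eq]; exact h0) hne
    refine ⟨q, hq, ?_⟩
    rw [← hq', cupPow_eq]
    rfl

lemma conjD_iff : X.ConjD ↔ X.HomNum := Iff.rfl

/-- `D(X × X)` implies `B(X)`. -/
theorem lefschetz_of_conjD (h : X.ConjD) : X.Lefschetz := lefschetz_of_homNum h

/-- `B(X)` implies `A(X × X)`. -/
theorem conjA_of_lefschetz {μ : X.H → X.H → Z.H} (hsp : SelfProduct X Z μ) (hH : X.HodgeType)
    (h : X.Lefschetz) : X.ConjA := by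
  obtain ⟨τ, hsq⟩ := hsp.isSquare
  obtain ⟨B, hP, hfin, -⟩ := hH
  intro s b hb
  obtain ⟨a, ha, hab⟩ := cup_surj hP.toPoincare hsq hfin h s b hb
  exact ⟨a, ha, by rw [cupPow_eq]; exact hab⟩

/-- `A(X × X)` implies `D(X × X)` in characteristic 0. -/
theorem conjD_of_conjA (hH : X.HodgeType) (h : X.ConjA) : X.ConjD := by
  obtain ⟨B, hP, hfin, hHR⟩ := hH
  refine hP.toPoincare.homNum_of_surj (hP.hodgeIndex hfin hHR) ?_
  intro s b hb
  obtain ⟨a, ha, hab⟩ := h s b hb
  exact ⟨a, ha, by rw [← cupPow_eq]; exact hab⟩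

end Pool.Agent.Helper29.CPB
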