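import Pool.Agent.Helper29.CPB.Graded
import Pool.Agent.Helper76.CPB.TraceTrick
import Pool.Agent.Helper89.Sgn.Idem

/-!
# The sign conjecture and `Half` for the square give an algebraic left inverse of `L ^ c`

A short proof, without decomposition into strings.
-/

namespace Pool.Agent.Helper29.CPB

open TensorProduct Pool.Agent.Helper89.Sgn TT

universe u v

variable {F : Type u} [Field F] [CharZero F]

section one
variable (X : Variety.{u, v} F)

lemma Variety.sgn_eq : X.sgn =
    (2 : F) • (∑ j ∈ (Finset.Icc (0 : ℤ) (2 * X.dim)).filter Even, X.π j) - 1 := by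
  apply X.ext_homog
  intro i x hx
  rw [X.sgn_apply hx, LinearMap.sub_apply, LinearMap.smul_apply, X.evenPart_apply hx,
    Module.End.one_apply]
  split_ifs with h
  · have : Even i.natAbs := Int.natAbs_even.mpr h
    rw [this.neg_one_pow, one_smul, two_smul]; abel
  · have : Odd i.natAbs := Int.natAbs_odd.mpr (Int.not_even_iff_odd.mp h)
    rw [this.neg_one_pow, neg_one_smul, smul_zero, zero_sub]

lemma Variety.sgn_mem (h : X.CPlus) : X.sgn ∈ X.corr 0 := by
  rw [X.sgn_eq]
  have h1 := X.corr_smul 2 0 _ h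
  push_cast at h1
  exact (X.corr 0).sub_mem h1 X.corr_one

lemma Variety.comm_sgn {x : Module.End F X.H} (hx : x ∈ X.corr 0) : x * X.sgn = X.sgn * x := by
  apply X.ext_homog
  intro i v hv
  rw [Module.End.mul_apply, Module.End.mul_apply, X.sgn_apply hv, map_smul,
    X.sgn_apply (X.corr_homog hx (by ring) hv)]

/-- the correspondences of degree `0` form a ring -/
def Variety.ring0 : Subring (Module.End F X.H) where
  carrier := {x | x ∈ X.corr 0}
  mul_mem' := fun ha hb => X.corr_mul' (by ring) ha hb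
  one_mem' := X.corr_one
  add_mem' := fun ha hb => (X.corr 0).add_mem ha hb
  zero_mem' := (X.corr 0).zero_mem
  neg_mem' := fun ha => (X.corr 0).neg_mem ha

/-- numerically trivial correspondences of degree `r` -/
def NumTriv (r : ℤ) (a : Module.End F X.H) : Prop :=
  ∀ v ∈ X.corr (-r), LinearMap.trace F X.H (v * (a * X.sgn)) = 0

variable {X}

lemma NumTriv.mul_left {r s : ℤ} {a l : Module.End F X.H} (h : NumTriv X r a)
    (hl : l ∈ X.corr s) : NumTriv X (s + r) (l * a) := by
  intro v hv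
  have := h (v * l) (X.corr_mul' (by ring) hv hl)
  rw [mul_assoc l, ← mul_assoc v]
  exact this

lemma NumTriv.isNilpotent (hs : X.sgn ∈ X.corr 0) {t : Module.End F X.H} (ht : t ∈ X.corr 0)
    (h : NumTriv X 0 t) : IsNilpotent t := by
  apply isNilpotent_of_trace
  intro n hn
  obtain ⟨k, rfl⟩ : ∃ k, n = k + 1 := ⟨n - 1, by omega⟩
  have h1 := h (X.sgn * t ^ k) (X.corr_mul' (by simp) hs (X.corr_pow_zero ht k))
  rw [mul_assoc, LinearMap.trace_mul_comm, mul_assoc, mul_assoc, X.sgn_mul_sgn, mul_one,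
    ← pow_succ] at h1
  exact h1

end one

variable {X Z : Variety.{u, v} F} {τ : (X.H ⊗[F] X.H) ≃ₗ[F] Z.H}

lemma conj_sgn (hsq : IsSquare X Z τ) : τ.symm.conj Z.sgn = TensorProduct.map X.sgn X.sgn := by
  apply ext_homog_tmul X
  intro i j x y hx hy
  rw [conj_apply', Z.sgn_apply (hsq.grade i j x y hx hy), map_smul, LinearEquiv.symm_apply_apply,
    TensorProduct.map_tmul, X.sgn_apply hx, X.sgn_apply hy, TensorProduct.smul_tmul_smul,
    ← pow_add]
  congr 1
  rcases Int.even_or_odd (i + j) with h | h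
  · have h1 : Even (i + j).natAbs := Int.natAbs_even.mpr h
    have h2 : Even (i.natAbs + j.natAbs) := by
      rw [Nat.even_add, Int.natAbs_even, Int.natAbs_even]
      exact Int.even_add.mp h
    rw [h1.neg_one_pow, h2.neg_one_pow]
  · have h1 : Odd (i + j).natAbs := Int.natAbs_odd.mpr h
    have h2 : Odd (i.natAbs + j.natAbs) := by
      rw [← Nat.not_even_iff_odd, Nat.even_add, Int.natAbs_even, Int.natAbs_even]
      rw [← Int.not_even_iff_odd, Int.even_add] at h
      exact h
    rw [h1.neg_one_pow, h2.neg_one_pow]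

lemma conj_symm_conj (g : Module.End F Z.H) : τ.conj (τ.symm.conj g) = g := by
  ext1; simp

lemma sgn_mem_square (hsq : IsSquare X Z τ) (hs : X.sgn ∈ X.corr 0) : Z.sgn ∈ Z.corr 0 := by
  have h := hsq.prod 0 0 _ _ hs hs
  rw [← conj_sgn hsq, conj_symm_conj, add_zero] at h
  exact h

lemma trace_conj (g : Module.End F Z.H) :
    LinearMap.trace F Z.H g = LinearMap.trace F (X.H ⊗[F] X.H) (τ.symm.conj g) :=
  (LinearMap.trace_conj' g τ.symm).symm

lemma num_left (hsq : IsSquare X Z τ) {r s : ℤ} {a b : Module.End F X.H}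
    (h : NumTriv X r a) (hb : b ∈ X.corr s) :
    NumTriv Z (r + s) (τ.conj (TensorProduct.map a b)) := by
  intro w hw
  rw [trace_conj (τ := τ), conj_mul', conj_mul', conj_conj, conj_sgn hsq, map_mul']
  have h1 : (TensorProduct.map (a * X.sgn) (b * X.sgn) : Module.End F (X.H ⊗[F] X.H)) =
      TensorProduct.map 1 b * TensorProduct.map 1 X.sgn * TensorProduct.map (a * X.sgn) 1 := by
    rw [map_mul', map_mul', one_mul, one_mul, mul_one]
  have h2 : τ.symm.conj w * TensorProduct.map 1 b =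
      τ.symm.conj (w * τ.conj (TensorProduct.map 1 b)) := by
    rw [conj_mul', conj_conj]
  rw [h1, ← mul_assoc, ← mul_assoc, h2, ← trace_ptr₂']
  apply h
  have h3 := hsq.prod 0 s 1 b X.corr_one hb
  exact hsq.contr₂ _ _ (Z.corr_mul' (by ring) hw h3)

lemma num_right (hsq : IsSquare X Z τ) {r s : ℤ} {a b : Module.End F X.H}
    (ha : a ∈ X.corr r) (h : NumTriv X s b) :
    NumTriv Z (r + s) (τ.conj (TensorProduct.map a b)) := by
  intro w hw
  rw [trace_conj (τ := τ), conj_mul', conj_mul', conj_conj, conj_sgn hsq, map_mul']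
  have h1 : (TensorProduct.map (a * X.sgn) (b * X.sgn) : Module.End F (X.H ⊗[F] X.H)) =
      TensorProduct.map a 1 * TensorProduct.map X.sgn 1 * TensorProduct.map 1 (b * X.sgn) := by
    rw [map_mul', map_mul', one_mul, one_mul, mul_one]
  have h2 : τ.symm.conj w * TensorProduct.map a 1 =
      τ.symm.conj (w * τ.conj (TensorProduct.map a 1)) := by
    rw [conj_mul', conj_conj]
  rw [h1, ← mul_assoc, ← mul_assoc, h2, ← trace_ptr₁']
  apply h
  have h3 := hsq.prod r 0 a 1 ha X.corr_one
  exact hsq.contr₁ _ _ (Z.corr_mul' (by ring) hw h3)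

/-- If `L ^ c a` is numerically trivial, then `a` is nilpotent on the degrees at most
`dim X - c`. -/
theorem nilpotent_low (hsq : IsSquare X Z τ) (hs : X.sgn ∈ X.corr 0) {c : ℕ} (hc : 1 ≤ c)
    (hhalf : Half Z (2 * c - 1)) {a : Module.End F X.H} (ha : a ∈ X.corr 0)
    (hn : NumTriv X c (X.L ^ c * a)) :
    ∃ k : ℕ, ∀ i : ℤ, i + c ≤ X.dim → ∀ x, X.π i x = x → (a ^ k) x = 0 := by
  obtain ⟨γ, hγ, hlow, -⟩ := hhalf
  set n := 2 * c - 1 with hnd
  have hdim := hsq.dim
  set t : Module.End F Z.H := γ * (Z.L ^ n * τ.conj (TensorProduct.map a a)) with ht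
  have haa := hsq.prod 0 0 a a ha ha
  have htm : t ∈ Z.corr 0 := by
    rw [ht]
    refine Z.corr_mul' (r := -(n : ℤ)) (s := (n : ℤ) + 0) (by ring) hγ ?_
    exact Z.corr_mul' (by simp) (Z.Lpow_corr n) haa
  have hexp : Z.L ^ n * τ.conj (TensorProduct.map a a) =
      ∑ m ∈ Finset.range (n + 1), ((n.choose m : ℕ) : F) •
        τ.conj (TensorProduct.map (X.L ^ m * a) (X.L ^ (n - m) * a)) := by
    apply (τ.symm.conj).injective
    rw [map_sum, conj_mul', conj_pow', conj_conj, conj_L hsq]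
    have hcm : Commute (TensorProduct.map X.L 1 : Module.End F (X.H ⊗[F] X.H))
        (TensorProduct.map 1 X.L) := by
      show _ * _ = _ * _
      rw [map_mul', map_mul', mul_one, one_mul]
    rw [hcm.add_pow, Finset.sum_mul]
    refine Finset.sum_congr rfl fun m _ => ?_
    rw [map_smul, conj_conj, TensorProduct.map_pow, TensorProduct.map_pow, one_pow, one_pow,
      map_mul', mul_one, one_mul, (Nat.cast_commute _ _).eq.symm, mul_assoc, map_mul',
      ← nsmul_eq_mul, Nat.cast_smul_eq_nsmul]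
  have htn : NumTriv Z 0 t := by
    intro v hv
    rw [ht, hexp, Finset.mul_sum, Finset.sum_mul, Finset.mul_sum, map_sum]
    apply Finset.sum_eq_zero
    intro m hm
    rw [Finset.mem_range] at hm
    rw [mul_smul_comm, smul_mul_assoc, mul_smul_comm, map_smul]
    have hvγ : v * γ ∈ Z.corr (-(n : ℤ)) := Z.corr_mul' (by ring) hv hγ
    have key : NumTriv Z (n : ℤ) (τ.conj (TensorProduct.map (X.L ^ m * a) (X.L ^ (n - m) * a))) := by
      rcases Nat.lt_or_ge m c with h | h
      · have h1 : X.L ^ (n - m) * a = X.L ^ (n - m - c) * (X.L ^ c * a) := by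
          rw [← mul_assoc, ← pow_add]; congr 2; omega
        have h2 := num_right hsq (X.corr_mul' (by simp) (X.Lpow_corr m) ha : X.L ^ m * a ∈
          X.corr (m : ℤ)) (hn.mul_left (X.Lpow_corr (n - m - c)))
        rw [h1]
        convert h2 using 1
        omega
      · have h1 : X.L ^ m * a = X.L ^ (m - c) * (X.L ^ c * a) := by
          rw [← mul_assoc, ← pow_add]; congr 2; omega
        have h2 := num_left hsq (hn.mul_left (X.Lpow_corr (m - c)))
          (X.corr_mul' (by simp) (X.Lpow_corr (n - m)) ha : X.L ^ (n - m) * a ∈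
            X.corr ((n - m : ℕ) : ℤ))
        rw [h1]
        convert h2 using 1
        omega
    have := key _ hvγ
    rw [mul_assoc γ, ← mul_assoc v, this, smul_zero]
  obtain ⟨k, hk⟩ := htn.isNilpotent (sgn_mem_square hsq hs) htm
  refine ⟨k, fun i hi x hx => ?_⟩
  have hstep : ∀ (x : X.H), X.π i x = x → t (τ (x ⊗ₜ x)) = τ (a x ⊗ₜ a x) := by
    intro x hx
    have hax : X.π i (a x) = a x := X.corr_homog ha (by ring) hx
    have e1 : τ.conj (TensorProduct.map a a) (τ (x ⊗ₜ x)) = τ (a x ⊗ₜ a x) := by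
      rw [LinearEquiv.conj_apply_apply, LinearEquiv.symm_apply_apply, TensorProduct.map_tmul]
    rw [ht, Module.End.mul_apply, Module.End.mul_apply, e1]
    apply hlow (i + i) ⟨i, rfl⟩
    · push_cast; omega
    · exact hsq.grade i i _ _ hax hax
  have hpow : ∀ m : ℕ, ∀ x : X.H, X.π i x = x →
      (t ^ m) (τ (x ⊗ₜ x)) = τ ((a ^ m) x ⊗ₜ (a ^ m) x) := by
    intro m
    induction m with
    | zero => intro x _; simp
    | succ m ih =>
      intro x hx
      rw [pow_succ, Module.End.mul_apply, hstep x hx, ih _ (X.corr_homog ha (by ring) hx),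
        pow_succ, Module.End.mul_apply]
  have h1 := hpow k x hx
  rw [hk, LinearMap.zero_apply] at h1
  have h2 : (a ^ k) x ⊗ₜ[F] (a ^ k) x = 0 := by
    apply τ.injective
    rw [← h1, map_zero]
  exact tmul_self_eq_zero h2

/-- **Local form.** `C⁺(X)` and `Half (X × X) (2c-1)` give an algebraic left inverse of `L ^ c` on
all the degrees at most `dim X - c`. -/
theorem left_inverse (hsq : IsSquare X Z τ) (hX : X.CPlus) {c : ℕ} (hc : 1 ≤ c)
    (hhalf : Half Z (2 * c - 1)) :
    ∃ w ∈ X.corr (-c), ∀ i : ℤ, i + c ≤ X.dim → ∀ x, X.π i x = x → w ((X.L ^ c) x) = x := by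
  have hs := X.sgn_mem hX
  let I : AddSubgroup (Module.End F X.H) := (X.corr (-c)).map (AddMonoidHom.mulRight (X.L ^ c))
  let T : Module.End F X.H →ₗ[F] F :=
    (LinearMap.trace F X.H) ∘ₗ (LinearMap.mulRight F X.sgn)
  obtain ⟨f, ⟨w0, hw0, hf⟩, hf'⟩ := exists_generator X.ring0
    (fun q u hu => X.corr_smul q 0 u hu)
    (fun x hx => by
      obtain ⟨q, hq⟩ := X.corr_rat (x * X.sgn) (X.corr_mul' (by ring) hx hs)
      refine ⟨q, ?_⟩
      rw [← hq]
      have h1 : x * X.sgn * X.sgn = x := by rw [mul_assoc, X.sgn_mul_sgn, mul_one]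
      conv_lhs => rw [← h1]
      rfl)
    I
    (fun x hx => by
      obtain ⟨w, hw, rfl⟩ := hx
      exact X.corr_mul' (by ring) hw (X.Lpow_corr c))
    (fun v hv x hx => by
      obtain ⟨w, hw, rfl⟩ := hx
      exact ⟨v * w, X.corr_mul' (by ring) hv hw, by simp [mul_assoc]⟩)
    T
    (fun x hx hnil => by
      have h1 : IsNilpotent (x * X.sgn) :=
        Commute.isNilpotent_mul_right (show Commute x X.sgn from X.comm_sgn hx) hnil
      have h2 := LinearMap.isNilpotent_trace_of_isNilpotent h1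
      rwa [isNilpotent_iff_eq_zero] at h2)
  have hf2 : w0 * X.L ^ c = f := hf
  have hfm : f ∈ X.corr 0 := by
    rw [← hf2]; exact X.corr_mul' (by ring) hw0 (X.Lpow_corr c)
  set a : Module.End F X.H := 1 - f with ha
  have ham : a ∈ X.corr 0 := (X.corr 0).sub_mem X.corr_one hfm
  obtain ⟨k, hk⟩ := nilpotent_low hsq hs hc hhalf ham (by
    intro v hv
    have := hf' (v * X.L ^ c) ⟨v, hv, rfl⟩
    have h1 : T (v * X.L ^ c * a) = LinearMap.trace F X.H (v * (X.L ^ c * a * X.sgn)) := by
      show LinearMap.trace F X.H (v * X.L ^ c * a * X.sgn) = _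
      simp only [mul_assoc]
    rw [← h1]; exact this)
  refine ⟨(∑ i ∈ Finset.range k, a ^ i) * w0, ?_, ?_⟩
  · refine X.corr_mul' (r := 0) (by ring) ?_ hw0
    exact (X.corr 0).sum_mem fun i _ => X.corr_pow_zero ham i
  · intro i hi x hx
    have h1 : (∑ i ∈ Finset.range k, a ^ i) * w0 * X.L ^ c = 1 - a ^ k := by
      rw [mul_assoc, hf2, show f = 1 - a by rw [ha]; abel, geom_sum_mul_neg]
    rw [← Module.End.mul_apply, h1, LinearMap.sub_apply, hk i hi x hx, sub_zero]
    rfl

/-- `C⁺(X)` and `Half (X × X) (2c-1)` for `1 ≤ c ≤ dim X` give `B(X)`. -/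
theorem lefschetz_of_half (hsq : IsSquare X Z τ) (hX : X.CPlus)
    (h : ∀ c : ℕ, 1 ≤ c → c ≤ X.dim → Half Z (2 * c - 1)) : X.Lefschetz := by
  intro i hi
  rcases hi.eq_or_lt with rfl | hlt
  · refine ⟨1, ?_, fun x _ => ?_⟩
    · rw [sub_self]; exact X.corr_one
    · simp
  · obtain ⟨w, hw, hw'⟩ := left_inverse hsq hX (c := X.dim - i) (by omega)
      (h _ (by omega) (by omega))
    refine ⟨w, ?_, fun x hx => hw' i (by omega) x hx⟩
    have e : (i : ℤ) - X.dim = -((X.dim - i : ℕ) : ℤ) := by omega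
    rw [e]; exact hw

end Pool.Agent.Helper29.CPB
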