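import Pool.Agent.Helper29.CPB.Graded
import Pool.Agent.Helper76.CPB.TraceTrick

/-!
# Poincare duality, transposition of correspondences, cycles on `X × X` and hard Lefschetz there
-/

namespace Pool.Agent.Helper29.CPB

open TensorProduct TT

universe u v

variable {F : Type u} [Field F] [CharZero F]

/-- Poincaré duality on `X`. -/
structure Poincare (X : Variety.{u, v} F) where
  /-- the pairing `∫ x ∪ y` -/
  B : LinearMap.BilinForm F X.H
  left : ∀ x, (∀ y, B x y = 0) → x = 0
  right : ∀ y, (∀ x, B x y = 0) → y = 0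
  deg : ∀ (i j : ℤ) (x y : X.H), X.π i x = x → X.π j y = y → i + j ≠ 2 * X.dim → B x y = 0
  comm : ∀ (i j : ℤ) (x y : X.H), X.π i x = x → X.π j y = y →
    B x y = (-1) ^ (i * j).natAbs * B y x
  /-- the class of the polarisation has even degree -/
  L_adj : ∀ x y, B (X.L x) y = B x (X.L y)
  /-- the transposed correspondence -/
  transp : ∀ (r : ℤ), ∀ f ∈ X.corr r, ∃ g ∈ X.corr r, ∀ x y, B (f x) y = B x (g y)

/-- The cup product with the class `L ⊗ 1 + 1 ⊗ L` on the cohomology `End (H^*(X))` of `X × X`. -/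
noncomputable def Variety.cup (X : Variety.{u, v} F) :
    Module.End F (Module.End F X.H) :=
  LinearMap.mulLeft F X.L + LinearMap.mulRight F X.L

variable {X Z : Variety.{u, v} F}

lemma cup_apply (a : Module.End F X.H) : X.cup a = X.L * a + a * X.L := rfl

lemma cup_mem {r t : ℤ} (h : t = r + 1) {a : Module.End F X.H} (ha : a ∈ X.corr r) :
    X.cup a ∈ X.corr t := by
  rw [cup_apply]
  exact (X.corr t).add_mem (X.corr_mul' (by omega) X.L_corr ha)
    (X.corr_mul' (by omega) ha X.L_corr)

lemma cup_pow_mem {r t : ℤ} (k : ℕ) (h : t = r + k) {a : Module.End F X.H} (ha : a ∈ X.corr r) :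
    (X.cup ^ k) a ∈ X.corr t := by
  induction k generalizing t with
  | zero => simpa [h] using ha
  | succ k ih =>
    rw [pow_succ', Module.End.mul_apply]
    refine cup_mem (r := r + k) (by rw [h]; push_cast; ring) (ih rfl)

namespace Poincare

variable (P : Poincare X)

/-- the isomorphism of `H` with its dual -/
noncomputable def e : X.H ≃ₗ[F] Module.Dual F X.H := by
  have hinj : Function.Injective P.B.flip := by
    rw [injective_iff_map_eq_zero]
    intro y hy
    exact P.right y fun x => congrArg (fun f => f x) hy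
  exact LinearEquiv.ofBijective P.B.flip ⟨hinj,
    (LinearMap.injective_iff_surjective_of_finrank_eq_finrank
      (Subspace.dual_finrank_eq (K := F) (V := X.H)).symm).mp hinj⟩

lemma e_apply (x z : X.H) : P.e x z = P.B z x := rfl

/-- the transposed operator -/
noncomputable def adj (f : Module.End F X.H) : Module.End F X.H :=
  P.e.symm.toLinearMap ∘ₗ f.dualMap ∘ₗ P.e.toLinearMap

lemma adj_apply (f : Module.End F X.H) (x y : X.H) : P.B (f x) y = P.B x (P.adj f y) := by
  have : P.e (P.adj f y) x = f.dualMap (P.e y) x := by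
    unfold adj
    simp
  rw [e_apply] at this
  rw [this]
  rfl

lemma eq_adj {f g : Module.End F X.H} (h : ∀ x y, P.B (f x) y = P.B x (g y)) : g = P.adj f := by
  ext y
  rw [← sub_eq_zero]
  apply P.right
  intro x
  rw [map_sub, ← h, ← P.adj_apply, sub_self]

lemma adj_mul (f g : Module.End F X.H) : P.adj (f * g) = P.adj g * P.adj f := by
  symm
  apply P.eq_adj
  intro x y
  rw [Module.End.mul_apply, P.adj_apply, P.adj_apply, Module.End.mul_apply]

lemma adj_add (f g : Module.End F X.H) : P.adj (f + g) = P.adj f + P.adj g := by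
  symm
  apply P.eq_adj
  intro x y
  rw [LinearMap.add_apply, LinearMap.add_apply, map_add, LinearMap.add_apply, map_add,
    P.adj_apply, P.adj_apply]

lemma adj_zero : P.adj 0 = 0 := by
  symm
  apply P.eq_adj
  intro x y
  simp

lemma adj_L : P.adj X.L = X.L := (P.eq_adj P.L_adj).symm

lemma adj_mem {r : ℤ} {f : Module.End F X.H} (hf : f ∈ X.corr r) : P.adj f ∈ X.corr r := by
  obtain ⟨g, hg, h⟩ := P.transp r f hf
  rw [← P.eq_adj h]
  exact hg

lemma B_homog {i j : ℤ} {x y : X.H} (hx : X.π i x = x) (hy : X.π j y = y) (h : i + j = 2 * X.dim) :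
    P.B x y = (-1) ^ i.natAbs * P.B y x := by
  rw [P.comm i j x y hx hy]
  congr 1
  rcases Int.even_or_odd i with hi | hi
  · have h1 : Even (i * j).natAbs := by
      rw [Int.natAbs_even]; exact hi.mul_right j
    rw [h1.neg_one_pow, (Int.natAbs_even.mpr hi).neg_one_pow]
  · have hj : Odd j := by
      obtain ⟨c, hc⟩ := hi
      exact ⟨X.dim - c - 1, by omega⟩
    have h1 : Odd (i * j).natAbs := by
      rw [Int.natAbs_odd]; exact hi.mul hj
    rw [h1.neg_one_pow, (Int.natAbs_odd.mpr hi).neg_one_pow]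

/-- bilinear identities can be checked on homogeneous vectors -/
lemma ext_bilin {B C : LinearMap.BilinForm F X.H}
    (h : ∀ (i j : ℤ) (x y : X.H), X.π i x = x → X.π j y = y → B x y = C x y) : B = C := by
  refine LinearMap.ext fun x => LinearMap.ext fun y => ?_
  rw [← sum_π_apply X x, ← sum_π_apply X y]
  simp only [map_sum, LinearMap.sum_apply]
  exact Finset.sum_congr rfl fun i _ => Finset.sum_congr rfl fun j _ =>
    h _ _ _ _ (X.π_apply_idem _ _) (X.π_apply_idem _ _)

lemma adj_adj {r : ℤ} {f : Module.End F X.H} (hf : f ∈ X.corr r) : P.adj (P.adj f) = f := by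
  symm
  apply P.eq_adj
  have h : P.B ∘ₗ (P.adj f) = P.B.compl₂ f := by
    apply ext_bilin
    intro i j x y hx hy
    show P.B (P.adj f x) y = P.B x (f y)
    have h1 := X.corr_homog (P.adj_mem hf) (i := i) rfl hx
    have h2 := X.corr_homog hf (i := j) rfl hy
    by_cases hij : i + 2 * r + j = 2 * X.dim
    · rw [P.B_homog h1 hy hij, P.B_homog hx h2 (by omega), ← P.adj_apply]
      congr 1
      have e1 : Even (i + 2 * r).natAbs ↔ Even i.natAbs := by
        rw [Int.natAbs_even, Int.natAbs_even, Int.even_add]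
        simp
      rcases Nat.even_or_odd i.natAbs with h3 | h3
      · rw [h3.neg_one_pow, (e1.mpr h3).neg_one_pow]
      · have h4 : Odd (i + 2 * r).natAbs := by
          rw [← Nat.not_even_iff_odd] at h3 ⊢
          exact fun h5 => h3 (e1.mp h5)
        rw [h3.neg_one_pow, h4.neg_one_pow]
    · rw [P.deg _ _ _ _ h1 hy hij, P.deg _ _ _ _ hx h2 (by omega)]
  intro x y
  exact congrArg (fun B => B x y) h

/-- the classes on `X × X` as operators -/
noncomputable def φ : (X.H ⊗[F] X.H) ≃ₗ[F] Module.End F X.H :=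
  (TensorProduct.congr P.e (LinearEquiv.refl F X.H)) ≪≫ₗ dualTensorHomEquiv F X.H X.H

lemma φ_tmul (x y z : X.H) : P.φ (x ⊗ₜ y) z = P.B z x • y := by
  unfold φ
  rw [LinearEquiv.trans_apply, TensorProduct.congr_tmul]
  have : (dualTensorHomEquiv F X.H X.H) (P.e x ⊗ₜ[F] (LinearEquiv.refl F X.H) y) =
      dualTensorHom F X.H X.H (P.e x ⊗ₜ[F] y) := by
    rw [← dualTensorHomEquivOfBasis_toLinearMap (Module.Free.chooseBasis F X.H)]
    rfl
  rw [this, dualTensorHom_apply, e_apply]

lemma φ_L (t : X.H ⊗[F] X.H) :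
    P.φ ((TensorProduct.map X.L 1 + TensorProduct.map 1 X.L : Module.End F (X.H ⊗[F] X.H)) t) =
      X.cup (P.φ t) := by
  have : P.φ.toLinearMap ∘ₗ (TensorProduct.map X.L 1 + TensorProduct.map 1 X.L) =
      X.cup ∘ₗ P.φ.toLinearMap := by
    apply TensorProduct.ext'
    intro x y
    ext z
    simp only [LinearMap.comp_apply, LinearMap.add_apply, TensorProduct.map_tmul, map_add,
      LinearEquiv.coe_coe, Module.End.one_apply, P.φ_tmul, cup_apply, Module.End.mul_apply,
      map_smul, P.L_adj]
    rw [add_comm]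
  exact congrArg (fun f => f t) this

lemma φ_L_pow (k : ℕ) (t : X.H ⊗[F] X.H) :
    P.φ (((TensorProduct.map X.L 1 + TensorProduct.map 1 X.L :
      Module.End F (X.H ⊗[F] X.H)) ^ k) t) = (X.cup ^ k) (P.φ t) := by
  induction k with
  | zero => simp
  | succ k ih =>
    rw [pow_succ', Module.End.mul_apply, P.φ_L, ih, pow_succ', Module.End.mul_apply]

variable {τ : (X.H ⊗[F] X.H) ≃ₗ[F] Z.H}

/-- Hard Lefschetz on `X × X`. -/
lemma hard_cup (P : Poincare X) (hsq : IsSquare X Z τ) (s : ℕ) {a : Module.End F X.H} (ha : a ∈ X.corr (-s))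
    (h : (X.cup ^ (2 * s)) a = 0) : a = 0 := by
  by_cases hs : X.dim < s
  · apply X.ext_homog
    intro i x hx
    rw [LinearMap.zero_apply]
    by_cases hi : 2 * (X.dim : ℤ) < i
    · rw [X.homog_zero (Or.inr hi) hx, map_zero]
    · exact X.homog_zero (Or.inl (by omega)) (X.corr_homog ha rfl hx)
  push Not at hs
  obtain ⟨t, rfl⟩ := P.φ.surjective a
  have hdim : (Z.dim : ℤ) = 2 * X.dim := by exact_mod_cast hsq.dim
  -- the degree of `t`
  have hdeg : Z.π (2 * X.dim - 2 * s) (τ t) = τ t := by
    have key : P.φ.toLinearMap ∘ₗ τ.symm.conj (Z.π (2 * X.dim - 2 * s)) =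
        (∑ j ∈ Finset.Icc (0 : ℤ) (2 * X.dim),
          LinearMap.mulLeft F (X.π (j - 2 * s)) ∘ₗ LinearMap.mulRight F (X.π j)) ∘ₗ
            P.φ.toLinearMap := by
      apply ext_homog_tmul X
      intro i k x y hx hy
      ext z
      simp only [LinearMap.comp_apply, LinearEquiv.coe_coe, LinearMap.sum_apply,
        LinearMap.mulLeft_apply, LinearMap.mulRight_apply, Module.End.mul_apply, P.φ_tmul,
        map_smul]
      rw [conj_apply']
      have hg := hsq.grade i k x y hx hy
      have hB : ∀ j : ℤ, j ≠ 2 * X.dim - i → P.B (X.π j z) x = 0 := by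
        intro j hj
        exact P.deg _ _ _ _ (X.π_apply_idem j z) hx (by omega)
      have hBz : P.B (X.π (2 * X.dim - i) z) x = P.B z x := by
        conv_rhs => rw [← sum_π_apply X z]
        rw [map_sum, LinearMap.sum_apply]
        by_cases hmem : (2 * (X.dim : ℤ) - i) ∈ Finset.Icc (0 : ℤ) (2 * X.dim)
        · rw [Finset.sum_eq_single_of_mem _ hmem]
          intro j _ hj
          exact hB j hj
        · rw [Finset.mem_Icc, not_and_or] at hmem
          rw [X.homog_zero (i := i) (by omega) hx]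
          simp
      have hsum : ∑ j ∈ Finset.Icc (0 : ℤ) (2 * X.dim), P.B (X.π j z) x • X.π (j - 2 * s) y =
          P.B z x • X.π (2 * X.dim - i - 2 * s) y := by
        by_cases hmem : (2 * (X.dim : ℤ) - i) ∈ Finset.Icc (0 : ℤ) (2 * X.dim)
        · rw [Finset.sum_eq_single_of_mem _ hmem, hBz]
          intro j _ hj
          rw [hB j hj, zero_smul]
        · rw [Finset.mem_Icc, not_and_or] at hmem
          rw [X.homog_zero (i := i) (by omega) hx]
          simp
      rw [hsum]
      by_cases hik : i + k = 2 * X.dim - 2 * s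
      · rw [← hik, hg, LinearEquiv.symm_apply_apply, P.φ_tmul]
        congr 1
        rw [show 2 * (X.dim : ℤ) - i - 2 * s = k by omega, hy]
      · rw [Z.π_apply_ne (Ne.symm hik) hg, map_zero, map_zero, LinearMap.zero_apply,
          X.π_apply_ne (by omega) hy, smul_zero]
    have h1 := congrArg (fun f => f t) key
    simp only [LinearMap.comp_apply, LinearEquiv.coe_coe, LinearMap.sum_apply,
      LinearMap.mulLeft_apply, LinearMap.mulRight_apply] at h1
    have h2 : ∑ j ∈ Finset.Icc (0 : ℤ) (2 * X.dim), X.π (j - 2 * s) * (P.φ t * X.π j) = P.φ t := by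
      have h3 : ∀ j ∈ Finset.Icc (0 : ℤ) (2 * X.dim),
          X.π (j - 2 * s) * (P.φ t * X.π j) = P.φ t * X.π j := by
        intro j _
        have h4 := X.corr_deg _ _ ha j
        rw [show j + 2 * -(s : ℤ) = j - 2 * s by ring] at h4
        rw [h4, ← mul_assoc, X.π_idem]
      rw [Finset.sum_congr rfl h3, ← Finset.mul_sum, X.π_sum, mul_one]
    rw [h2] at h1
    have h5 := P.φ.injective h1
    rw [conj_apply'] at h5
    have h6 := congrArg τ h5
    rwa [LinearEquiv.apply_symm_apply] at h6
  have hL : (Z.L ^ (2 * s)) (τ t) = 0 := by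
    apply τ.symm.injective
    rw [map_zero, ← conj_apply', conj_pow', conj_L hsq]
    apply P.φ.injective
    rw [P.φ_L_pow, h, map_zero]
  have hz := Z.hard_inj (2 * X.dim - 2 * s) (by omega) (τ t)
    (by push_cast [Nat.cast_sub (show 2 * s ≤ 2 * X.dim by omega)]; exact hdeg)
    (by rw [show Z.dim - (2 * X.dim - 2 * s) = 2 * s by have := hsq.dim; omega]; exact hL)
  rw [τ.map_eq_zero_iff.mp hz, map_zero]

end Poincare

end Pool.Agent.Helper29.CPB
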