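import Pool.Agent.Helper29.CPB.Statement

/-!
# Poincaré duality, the Hodge index theorem, and the standard conjectures `A` and `D` for `X × X`

Additions to `Pool.Agent.Helper29.CPB.Statement`. A class on `X × X` of codimension `dim X + r` is
regarded as an operator `H^*(X) → H^(*+2r)(X)`; the algebraic ones are the `f` with `alg r f`.
-/

namespace Pool.Agent.Helper29.CPB

universe u v

section Linear

variable {F : Type u} [Field F] {V : Type v} [AddCommGroup V] [Module F V]

/-- `g` is the transpose of `f` for the form `B`. -/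
def IsTransposed (B : V →ₗ[F] V →ₗ[F] F) (f g : Module.End F V) : Prop :=
  ∀ x y, B (f x) y = B x (g y)

/-- Poincaré duality for `X` of dimension `n`: the form `B x y = ∫ x ∪ y` is non-degenerate and
graded commutative, and pairs `H^i` with `H^(2n-i)`; cup product with the class of the polarisation
is self-adjoint; transposes of algebraic correspondences are algebraic. -/
structure IsPoincare (n : ℕ) (π : ℤ → Module.End F V) (L : Module.End F V)
    (alg : ℤ → Module.End F V → Prop) (B : V →ₗ[F] V →ₗ[F] F) : Prop where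
  left : ∀ x, (∀ y, B x y = 0) → x = 0
  right : ∀ y, (∀ x, B x y = 0) → y = 0
  deg : ∀ (i j : ℤ) (x y : V), π i x = x → π j y = y → i + j ≠ 2 * n → B x y = 0
  comm : ∀ (i j : ℤ) (x y : V), π i x = x → π j y = y → B x y = (-1) ^ (i * j).natAbs * B y x
  polar : IsTransposed B L L
  transp : ∀ r f, alg r f → ∃ g, alg r g ∧ IsTransposed B f g

/-- Cup product of the class `a` on `X × X` with the `k`-th power of the polarisation
`L ⊗ 1 + 1 ⊗ L`. -/
def cupPow (L : Module.End F V) (k : ℕ) (a : Module.End F V) : Module.End F V :=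
  (fun b => L * b + b * L)^[k] a

/-- The algebraic classes of degree `r` form a finite dimensional `ℚ`-space. -/
def FiniteClasses (alg : ℤ → Module.End F V → Prop) : Prop :=
  ∀ r, ∃ s : Finset (Module.End F V), ∀ f, alg r f → ∃ c : Module.End F V → ℚ,
    f = ∑ g ∈ s, (c g : F) • g

/-- The Hodge–Riemann relations for the primitive algebraic classes `a ≠ 0` on `X × X`, of
codimension `p = n - s ≤ n`: `(-1)^p ∫ a ∪ a ∪ (L ⊗ 1 + 1 ⊗ L)^(2s) > 0`. The intersection number of
`a` and `c` is the alternating trace of `b ∘ c`, with `b` the transpose of `a`. -/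
def HodgeRiemann (n : ℕ) (π : ℤ → Module.End F V) (L : Module.End F V)
    (alg : ℤ → Module.End F V → Prop) (B : V →ₗ[F] V →ₗ[F] F) : Prop :=
  ∀ (s : ℕ) (a b : Module.End F V), alg (-s) a → IsTransposed B a b →
    cupPow L (2 * s + 1) a = 0 → a ≠ 0 →
    ∃ q : ℚ, 0 < q ∧ tr (b * cupPow L (2 * s) a * parity n π) = (-1) ^ (n + s) * (q : F)

end Linear

variable {F : Type u} [Field F]

/-- Poincaré duality for `X` and, for the algebraic classes on `X × X`, finiteness and the
Hodge–Riemann relations. All this holds in characteristic 0. -/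
def Variety.HodgeType (X : Variety.{u, v} F) : Prop :=
  ∃ B : X.H →ₗ[F] X.H →ₗ[F] F, IsPoincare X.dim X.π X.L X.alg B ∧ FiniteClasses X.alg ∧
    HodgeRiemann X.dim X.π X.L X.alg B

/-- The standard conjecture `A(X × X)` (for the polarisation `L ⊗ 1 + 1 ⊗ L`): its power `2s` maps
the algebraic classes of codimension `dim X - s` onto those of codimension `dim X + s`. -/
def Variety.ConjA (X : Variety.{u, v} F) : Prop :=
  ∀ (s : ℕ) (b : Module.End F X.H), X.alg s b → ∃ a, X.alg (-s) a ∧ cupPow X.L (2 * s) a = b

/-- The standard conjecture `D(X × X)`: an algebraic class on `X × X` which is numerically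
equivalent to zero is zero. -/
def Variety.ConjD (X : Variety.{u, v} F) : Prop :=
  ∀ (r : ℤ) (a : Module.End F X.H), X.alg r a →
    (∀ v, X.alg (-r) v → tr (v * a * parity X.dim X.π) = 0) → a = 0

/-- The class `𝒱` of varieties is stable under generic sections of squares: with `X` it contains
a generic complete intersection of codimension `2c - 1` in `X × X`, for `1 ≤ c ≤ dim X`. -/
def SectionClosed (𝒱 : Set (Variety.{u, v} F)) : Prop :=
  ∀ X ∈ 𝒱, ∃ (Z : Variety.{u, v} F) (μ : X.H → X.H → Z.H), SelfProduct X Z μ ∧
    ∀ c : ℕ, 1 ≤ c → c ≤ X.dim → ∃ S ∈ 𝒱, Nonempty (GenericSection Z S (2 * c - 1))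

end Pool.Agent.Helper29.CPB
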